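import Pool.Agent.X330.MT.Sq

/-!
# The square of an increasing word: the chain
-/

namespace Pool.Agent.X330.MT

open Pool.Agent.X287.MTRing Pool.Agent.X287.MTFun

variable {A : Type*} [Ring A]

theorem K1 {t : ℤ → A} (h : Rel t) (p : ℤ) (j r m : ℕ) (hm : m = j + 1 + r) (w : List ℤ)
    (hw : InW p m w) (hl : j + 2 ≤ w.length) :
    pr t w * (t (p + m) * (P t (p + j + 2) r * P t (p + 1) m)) = 0 := by
  cases r with
  | zero =>
    have := V h p m (by omega) w hw (by omega)
    simpa [P, inc] using this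
  | succ r =>
    have := L h p m (by omega) (inc (p + j + 2) r) w hw (InW.inc (by omega) (by omega))
      (by rw [inc_len]; omega)
    rw [P_succ_right]
    have e : p + (j : ℤ) + 2 + r = p + m := by subst hm; push_cast; ring
    rw [e, mul_assoc (P t (p + j + 2) r)]
    exact this

theorem K2 {t : ℤ → A} (h : Rel t) (p : ℤ) (j r m : ℕ) (hm : m = j + 1 + r) (w : List ℤ) (x : ℤ)
    (hx : p + 1 ≤ x ∧ x ≤ p + m - 1) (hw : InW p m w) (hl : j + 1 ≤ w.length) :
    pr t w * (t (p + m) * (t x * (P t (p + j + 2) r * P t (p + 1) m))) = 0 := by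
  cases r with
  | zero =>
    have := L1 h p m (by omega) w x hw hx (by omega)
    simpa [P, inc] using this
  | succ r =>
    have := L h p m (by omega) (x :: inc (p + j + 2) r) w hw
      (InW.cons (by omega) (InW.inc (by omega) (by omega)))
      (by simp only [List.length_cons, inc_len]; omega)
    rw [P_succ_right]
    have e : p + (j : ℤ) + 2 + r = p + m := by subst hm; push_cast; ring
    rw [e, mul_assoc (P t (p + j + 2) r)]
    rw [pr_cons, mul_assoc (t x)] at this
    exact this

/-- The intermediate words of the chain. -/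
def X (t : ℤ → A) (p : ℤ) (j r : ℕ) : A :=
  P t p j * (t (p + j + r) * (t p * (P t (p + j + 1) r * P t (p + 1) (j + r))))

theorem X_step_zero {t : ℤ → A} (h : Rel t) (p : ℤ) (r : ℕ) :
    X t p 1 r = - X t p 0 (r + 1) := by
  obtain ⟨m, hm⟩ : ∃ m : ℕ, m = 0 + 1 + r := ⟨_, rfl⟩
  set Vv := P t (p + (0 : ℕ) + 2) r * P t (p + 1) m with hV
  have k1 := K1 h p 0 r m hm [p, p] (InW.cons (by omega) (InW.cons (by omega) InW.nil)) (by simp)
  have cb := h.cub (p + m) p
  have ad := h.adj p
  have v1 := van h (p + 1) m ((p + m) :: (p + 1) :: (p + 1) :: (inc (p + 2) r ++ inc (p + 1) m))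
    (InW.cons (by omega) (InW.cons (by omega) (InW.cons (by omega)
      ((InW.inc (by omega) (by omega)).append (InW.inc (by omega) (by omega))))))
    (by simp [inc_len]; omega)
  simp only [pr_append, pr_cons, pr_nil, mul_one, pr_inc] at k1 v1
  have e0 : p + ((0 : ℕ) : ℤ) + 2 = p + 2 := by simp
  rw [e0] at k1 hV
  rw [← hV] at k1 v1
  have x1 : X t p 1 r = t p * (t (p + m) * (t p * Vv)) := by
    rw [X, hV]
    have e1 : p + ((1 : ℕ) : ℤ) + r = p + m := by subst hm; push_cast; ring
    have e2 : p + ((1 : ℕ) : ℤ) + 1 = p + 2 := by push_cast; ring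
    have e3 : 1 + r = m := by omega
    rw [e1, e2, e3]
    simp [P, inc]
  have x0 : X t p 0 (r + 1) = t (p + m) * (t p * (t (p + 1) * Vv)) := by
    rw [X, hV]
    have e1 : p + ((0 : ℕ) : ℤ) + (r + 1 : ℕ) = p + m := by subst hm; push_cast; ring
    have e2 : p + ((0 : ℕ) : ℤ) + 1 = p + 1 := by push_cast; ring
    have e3 : 0 + (r + 1) = m := by omega
    have e4 : P t p 0 = 1 := rfl
    rw [e1, e2, e3, e4, one_mul, P_succ]
    have e5 : p + 1 + 1 = p + 2 := by ring
    rw [e5, mul_assoc]
  rw [x1, x0]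
  have c' : t p * (t (p + m) * (t p * Vv)) = - (t p * t p * (t (p + m) * Vv))
      - t (p + m) * ((t p * t p) * Vv) := by
    have := congrArg (· * Vv) cb
    simp only [zero_mul] at this
    rw [← sub_eq_zero, ← this]
    noncomm_ring
  have a' : t p * t p = t p * t (p + 1) - t (p + 1) * t (p + 1) := by
    rw [ad]; abel
  have c2 : t (p + m) * ((t p * t p) * Vv) = t (p + m) * (t p * (t (p + 1) * Vv))
      - t (p + m) * (t (p + 1) * (t (p + 1) * Vv)) := by
    rw [a']; noncomm_ring
  rw [c', c2, v1, k1]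
  simp

theorem X_step {t : ℤ → A} (h : Rel t) (h3 : Sym3 t) (p : ℤ) (j r : ℕ) :
    X t p (j + 1) r = - X t p j (r + 1) := by
  cases j with
  | zero => exact X_step_zero h p r
  | succ i =>
  obtain ⟨j, hj⟩ : ∃ j : ℕ, j = i + 1 := ⟨_, rfl⟩
  rw [← hj]
  obtain ⟨m, hm⟩ : ∃ m : ℕ, m = j + 1 + r := ⟨_, rfl⟩
  set Vv := P t (p + j + 2) r * P t (p + 1) m with hV
  have hIj : InW p m (inc p j) := InW.inc (by omega) (by omega)
  have kA := K2 h p j r m hm (inc p j ++ [p]) (p + j) (by omega)
    (hIj.append (InW.cons (by omega) InW.nil)) (by simp [inc_len])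
  have kC := K1 h p j r m hm (inc p j ++ [p, p + j])
    (hIj.append (InW.cons (by omega) (InW.cons (by omega) InW.nil))) (by simp [inc_len])
  have kE := K1 h p j r m hm (inc p j ++ [p + j, p])
    (hIj.append (InW.cons (by omega) (InW.cons (by omega) InW.nil))) (by simp [inc_len])
  have hw : ∀ y z : ℤ, p + 1 ≤ y ∧ y ≤ p + 1 + m - 1 → p + 1 ≤ z ∧ z ≤ p + 1 + m - 1 →
      P t p j * (t (p + m) * (t y * (t z * Vv))) = 0 := by
    intro y z hy hz
    have v1 := van h (p + 1) m (inc (p + 1) i ++ (p + m) :: y :: z ::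
      (inc (p + j + 2) r ++ inc (p + 1) m))
      ((InW.inc (by omega) (by omega)).append (InW.cons (by omega) (InW.cons hy (InW.cons hz
        ((InW.inc (by omega) (by omega)).append (InW.inc (by omega) (by omega)))))))
      (by simp [inc_len]; omega)
    simp only [pr_append, pr_cons, pr_inc] at v1
    have hP : P t p j = t p * P t (p + 1) i := by rw [hj, P_succ]
    rw [hP, mul_assoc, hV, v1, mul_zero]
  simp only [pr_append, pr_cons, pr_nil, mul_one, pr_inc] at kA kC kE
  rw [← hV] at kA kC kE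
  have rl := h.rel p (p + j)
  have s3 := h3 p (p + m) (p + j)
  have x1 : X t p (j + 1) r = P t p j * (t (p + j) * (t (p + m) * (t p * Vv))) := by
    rw [X, hV, P_succ_right]
    have e1 : p + ((j + 1 : ℕ) : ℤ) + r = p + m := by subst hm; push_cast; ring
    have e2 : p + ((j + 1 : ℕ) : ℤ) + 1 = p + j + 2 := by push_cast; ring
    rw [e1, e2, ← hm, mul_assoc]
  have x0 : X t p j (r + 1) = P t p j * (t (p + m) * (t p * (t (p + j + 1) * Vv))) := by
    rw [X, hV, P_succ]
    have e1 : p + (j : ℤ) + (r + 1 : ℕ) = p + m := by subst hm; push_cast; ring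
    have e2 : p + (j : ℤ) + 1 + 1 = p + j + 2 := by ring
    have e3 : j + (r + 1) = m := by omega
    rw [e1, e2, e3, mul_assoc (t (p + j + 1))]
  rw [x1, x0]
  have w1 := hw (p + 1) (p + j + 1) (by omega) (by omega)
  have w2 := hw (p + j) (p + 1) (by omega) (by omega)
  have w3 := hw (p + j + 1) (p + 1) (by omega) (by omega)
  have f1 : P t p j * (t (p + j) * (t (p + m) * (t p * Vv)))
      = - (P t p j * t p * (t (p + m) * (t (p + j) * Vv)))
        - (P t p j * (t p * t (p + j)) * (t (p + m) * Vv))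
        - (P t p j * (t (p + j) * t p) * (t (p + m) * Vv))
        - P t p j * (t (p + m) * ((t p * t (p + j) + t (p + j) * t p) * Vv)) := by
    have := congrArg (fun z => P t p j * z * Vv) s3
    simp only [zero_mul, mul_zero] at this
    rw [← sub_eq_zero, ← this]
    noncomm_ring
  have f2 : t p * t (p + j) + t (p + j) * t p = t p * t (p + j + 1) - t (p + 1) * t (p + j + 1)
      + t (p + j) * t (p + 1) - t (p + j + 1) * t (p + 1) := by
    rw [← sub_eq_zero, ← rl]
    abel
  have f3 : P t p j * (t (p + m) * ((t p * t (p + j) + t (p + j) * t p) * Vv))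
      = P t p j * (t (p + m) * (t p * (t (p + j + 1) * Vv)))
        - P t p j * (t (p + m) * (t (p + 1) * (t (p + j + 1) * Vv)))
        + P t p j * (t (p + m) * (t (p + j) * (t (p + 1) * Vv)))
        - P t p j * (t (p + m) * (t (p + j + 1) * (t (p + 1) * Vv))) := by
    rw [f2]
    noncomm_ring
  rw [f1, f3, w1, w2, w3, kA, kC, kE]
  simp

theorem X_eq {t : ℤ → A} (h : Rel t) (h3 : Sym3 t) (p : ℤ) (j r : ℕ) :
    X t p j r = (-1 : ℤ) ^ j • X t p 0 (j + r) := by
  induction j generalizing r with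
  | zero => simp
  | succ j ih =>
    rw [X_step h h3, ih, pow_succ]
    have e : j + (r + 1) = j + 1 + r := by ring
    rw [e]
    simp

/-- **The square of an increasing word.** -/
theorem P_sq {t : ℤ → A} (h : Rel t) (h3 : Sym3 t) (n : ℕ) (p : ℤ) :
    P t p n * P t p n = Om t p n := by
  induction n generalizing p with
  | zero => simp [P, inc, Om]
  | succ m ih =>
    have e := X_eq h h3 p m 0
    have x1 : X t p m 0 = P t p (m + 1) * P t p (m + 1) := by
      rw [X]
      conv_rhs => rw [P_succ_right, mul_assoc, ← P_succ_right, P_succ]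
      simp [P, inc]
    have x0 : X t p 0 (m + 0) = (-1 : ℤ) ^ m • Om t p (m + 1) := by
      rw [X]
      have e1 : p + ((0 : ℕ) : ℤ) + (m + 0 : ℕ) = p + m := by simp
      have e2 : p + ((0 : ℕ) : ℤ) + 1 = p + 1 := by simp
      have e3 : 0 + (m + 0) = m := by omega
      have e4 : P t p 0 = 1 := rfl
      have c := h.cube (p + m)
      have c' : t (p + m) * (t (p + m) * (t (p + m) * B t p m)) = 0 := by
        simpa only [mul_assoc, zero_mul] using congrArg (· * B t p m) c
      rw [e1, e2, e3, e4, one_mul]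
      simp only [add_zero]
      rw [ih, h.E, mul_smul_comm, B, mul_add, c', zero_add, Om]
    rw [← x1, e, x0, smul_smul, ← mul_pow]
    simp

/-- `P_i P_n = Om_i P_[i+1,n]`. -/
theorem P_mul_P {t : ℤ → A} (h : Rel t) (h3 : Sym3 t) (i r : ℕ) (p : ℤ) :
    P t p i * P t p (i + r) = Om t p i * P t (p + i) r := by
  rw [P_add, ← mul_assoc, P_sq h h3]

end Pool.Agent.X330.MT
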