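import Pool.Agent.X330.MT.Chain
import Pool.Agent.X287.MTAl

/-!
# The symmetric cubic relation for the monotone triangle function
-/

namespace Pool.Agent.X330.MT

open Pool.Agent.X287.MTRing Pool.Agent.X287.MTFun Pool.Agent.X287.MTAl

/-- Functions of words which satisfy the relations, and the symmetric cubic relation. -/
structure Ctx3 (f : List ℤ → ℤ) : Prop where
  ctx : Ctx f
  sym : ∀ u s x y z, f (u ++ x :: y :: z :: s) + f (u ++ x :: z :: y :: s)
    + f (u ++ y :: x :: z :: s) + f (u ++ y :: z :: x :: s)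
    + f (u ++ z :: x :: y :: s) + f (u ++ z :: y :: x :: s) = 0

/-- The module of such functions. -/
def N : Submodule ℤ (List ℤ → ℤ) where
  carrier := {f | Ctx3 f}
  zero_mem' := ⟨M.zero_mem, by simp⟩
  add_mem' := by
    intro a b ha hb
    refine ⟨M.add_mem ha.ctx hb.ctx, fun u s x y z => ?_⟩
    have h1 := ha.sym u s x y z
    have h2 := hb.sym u s x y z
    simp only [Pi.add_apply]
    linarith
  smul_mem' := by
    intro c a ha
    refine ⟨M.smul_mem c ha.ctx, fun u s x y z => ?_⟩
    have h1 := ha.sym u s x y z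
    simp only [Pi.smul_apply, smul_eq_mul]
    linear_combination c * h1

theorem mem_N {f : List ℤ → ℤ} : f ∈ N ↔ Ctx3 f := Iff.rfl

theorem T0_mem3 (x : ℤ) {f : List ℤ → ℤ} (hf : f ∈ N) : T0 x f ∈ N := by
  have h := mem_N.1 hf
  refine ⟨T0_mem x h.ctx, fun u s a b c => ?_⟩
  simpa using h.sym u (s ++ [x]) a b c

/-- Appending a letter, on the module of functions with the relations. -/
def R (x : ℤ) : Module.End ℤ N := (T0 x).restrict (fun _ hf => T0_mem3 x hf)

@[simp] theorem R_apply (x : ℤ) (f : N) (w : List ℤ) : (R x f : List ℤ → ℤ) w = f.1 (w ++ [x]) :=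
  rfl

theorem R_coe (x : ℤ) (f : N) : ((R x f : N) : List ℤ → ℤ) = T0 x f.1 := rfl

theorem R_rel : Rel R where
  rel x y := by
    ext f w
    have := f.2.ctx.rel w [] x y
    simpa using this
  adj x := by
    ext f w
    have := Ctx.adj f.2.ctx w [] x
    simpa using this
  cube x := by
    ext f w
    have := f.2.ctx.cube w [] x
    simpa using this
  cub x y := by
    ext f w
    have := f.2.ctx.cub w [] x y
    simpa using this

theorem R_sym3 : Sym3 R := by
  intro x y z
  ext f w
  have := f.2.sym w [] x y z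
  simpa using this

theorem prod_coe3 (l : List ℤ) (f : N) :
    (((l.map R).prod f : N) : List ℤ → ℤ) = (l.map T0).prod f.1 := by
  induction l generalizing f with
  | nil => simp
  | cons x l ih =>
    rw [List.map_cons, List.prod_cons, Module.End.mul_apply, R_coe, ih]
    simp

/-- Equal words of operators give equal values. -/
theorem eq_of_prod3 {f : List ℤ → ℤ} (hf : Ctx3 f) {l l' : List ℤ}
    (h : (l.map R).prod = (l'.map R).prod) : f l = f l' := by
  have e1 := prod_apply l f []
  have e2 := prod_apply l' f []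
  rw [List.nil_append] at e1 e2
  have hm : f ∈ N := hf
  have e3 := prod_coe3 l ⟨f, hm⟩
  have e4 := prod_coe3 l' ⟨f, hm⟩
  rw [← e1, ← e2]
  change (l.map T0).prod (⟨f, hm⟩ : N).1 [] = (l'.map T0).prod (⟨f, hm⟩ : N).1 []
  rw [← e3, ← e4, h]

/-- The symmetric cubic relation. -/
theorem al_sym (m : ℕ) (p r : List ℤ) (hm : m = p.length + r.length + 3) (x y z : ℤ) :
    Pool.Agent.X144.MT.al m (p ++ x :: y :: z :: r)
      + Pool.Agent.X144.MT.al m (p ++ x :: z :: y :: r)
      + Pool.Agent.X144.MT.al m (p ++ y :: x :: z :: r)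
      + Pool.Agent.X144.MT.al m (p ++ y :: z :: x :: r)
      + Pool.Agent.X144.MT.al m (p ++ z :: x :: y :: r)
      + Pool.Agent.X144.MT.al m (p ++ z :: y :: x :: r) = 0 := by
  have vx : Pool.Agent.X144.MT.PF (fun e => x + e 0) :=
    (Pool.Agent.X144.MT.PF_const x).add (Pool.Agent.X144.MT.PF_var 0)
  have vy : Pool.Agent.X144.MT.PF (fun e => y + e 0) :=
    (Pool.Agent.X144.MT.PF_const y).add (Pool.Agent.X144.MT.PF_var 0)
  have vz : Pool.Agent.X144.MT.PF (fun e => z + e 0) :=
    (Pool.Agent.X144.MT.PF_const z).add (Pool.Agent.X144.MT.PF_var 0)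
  have hPF := (((((Pool.Agent.X144.MT.PF_window m p r hm vx vy vz).add
    (Pool.Agent.X144.MT.PF_window m p r hm vx vz vy)).add
    (Pool.Agent.X144.MT.PF_window m p r hm vy vx vz)).add
    (Pool.Agent.X144.MT.PF_window m p r hm vy vz vx)).add
    (Pool.Agent.X144.MT.PF_window m p r hm vz vx vy)).add
    (Pool.Agent.X144.MT.PF_window m p r hm vz vy vx)
  have h := hPF.alternating (fun s => ?_) 0
  · simpa using h
  · have a1 := Pool.Agent.X144.MT.R12_al m p r (x + s + 1) (y + s) (z + s)
    have a2 := Pool.Agent.X144.MT.R12_al m p r (y + s + 1) (x + s) (z + s)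
    have a3 := Pool.Agent.X144.MT.R12_al m p r (z + s + 1) (x + s) (y + s)
    have b1 := Pool.Agent.X144.MT.R23_al m p r (x + s) (y + s) (z + s)
    have b2 := Pool.Agent.X144.MT.R23_al m p r (y + s) (x + s) (z + s)
    have b3 := Pool.Agent.X144.MT.R23_al m p r (z + s) (x + s) (y + s)
    simp only [Pool.Agent.X144.MT.V] at a1 a2 a3 b1 b2 b3
    have e1 : x + (s + 1) = x + s + 1 := by ring
    have e2 : y + (s + 1) = y + s + 1 := by ring
    have e3 : z + (s + 1) = z + s + 1 := by ring
    simp only [e1, e2, e3]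
    linarith

/-- The monotone triangle function satisfies all relations. -/
theorem F_ctx3 : Ctx3 F where
  ctx := F_ctx
  sym u s x y z := by
    have h := al_sym (u.length + s.length + 3) u s rfl x y z
    simp only [F, List.length_append, List.length_cons]
    have e : u.length + (s.length + 1 + 1 + 1) = u.length + s.length + 3 := by ring
    rw [e]
    exact h

/-- **The prefix-repeated row.** -/
theorem F_prefix (i r : ℕ) : F (inc 1 i ++ inc 1 (i + r)) = F (inc 1 (i + r)) := by
  have h1 : F (inc 1 i ++ inc 1 (i + r)) = F (sigma 0 i r) := by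
    apply eq_of_prod3 F_ctx3
    have hs := P_mul_P R_rel R_sym3 i r 1
    have e0 : (1 : ℤ) + ((0 : ℕ) : ℤ) = 1 := by simp
    rw [sigma, e0, List.map_append, List.prod_append, List.map_append, List.prod_append,
      List.map_append, List.prod_append, omL_prod]
    simp only [P] at hs
    rw [hs]
    simp [inc]
  have h2 := F_sigma 0 i r
  rw [h1, h2, zero_add]

end Pool.Agent.X330.MT
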