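import Pool.Agent.X287.MTFun

/-!
# The square of an increasing word

In a ring with letters satisfying the relations of the monotone triangle polynomial, together with
the symmetric cubic relation, `(t_p ⋯ t_{p+n-1})² = t_{p+n-1}² ⋯ t_p²`.
-/

namespace Pool.Agent.X330.MT

open Pool.Agent.X287.MTRing Pool.Agent.X287.MTFun

variable {A : Type*} [Ring A]

/-- The symmetric cubic relation. -/
def Sym3 (t : ℤ → A) : Prop := ∀ x y z : ℤ,
  t x * (t y * t z) + t x * (t z * t y) + t y * (t x * t z) + t y * (t z * t x)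
    + t z * (t x * t y) + t z * (t y * t x) = 0

/-- Product of a word. -/
def pr (t : ℤ → A) (w : List ℤ) : A := (w.map t).prod

theorem pr_append (t : ℤ → A) (u v : List ℤ) : pr t (u ++ v) = pr t u * pr t v := by
  simp [pr]

theorem pr_cons (t : ℤ → A) (x : ℤ) (v : List ℤ) : pr t (x :: v) = t x * pr t v := by
  simp [pr]

theorem pr_single (t : ℤ → A) (x : ℤ) : pr t [x] = t x := by
  simp [pr]

theorem pr_nil (t : ℤ → A) : pr t [] = 1 := rfl

theorem pr_inc (t : ℤ → A) (p : ℤ) (k : ℕ) : pr t (inc p k) = P t p k := rfl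

theorem inc_len (p : ℤ) (k : ℕ) : (inc p k).length = k := by
  induction k generalizing p with
  | zero => rfl
  | succ k ih => simp [inc, ih]

theorem inc_mem (p : ℤ) (k : ℕ) : ∀ x ∈ inc p k, p ≤ x ∧ x ≤ p + k - 1 := by
  induction k generalizing p with
  | zero => simp [inc]
  | succ k ih =>
    intro x hx
    simp only [inc, List.mem_cons] at hx
    push_cast
    rcases hx with rfl | hx
    · omega
    · have := ih (p + 1) x hx
      omega

/-- Words in the window `[p, p + m - 1]`. -/
def InW (p : ℤ) (m : ℕ) (w : List ℤ) : Prop := ∀ x ∈ w, p ≤ x ∧ x ≤ p + m - 1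

theorem InW.append {p : ℤ} {m : ℕ} {u v : List ℤ} (hu : InW p m u) (hv : InW p m v) :
    InW p m (u ++ v) := by
  intro x hx
  rcases List.mem_append.1 hx with hx | hx
  · exact hu x hx
  · exact hv x hx

theorem InW.cons {p : ℤ} {m : ℕ} {y : ℤ} {v : List ℤ} (hy : p ≤ y ∧ y ≤ p + m - 1)
    (hv : InW p m v) : InW p m (y :: v) := by
  intro x hx
  rcases List.mem_cons.1 hx with rfl | hx
  · exact hy
  · exact hv x hx

theorem InW.nil {p : ℤ} {m : ℕ} : InW p m [] := by
  intro x hx
  simp at hx

theorem InW.inc {p : ℤ} {m : ℕ} {q : ℤ} {k : ℕ} (h1 : p ≤ q) (h2 : q + k ≤ p + m) :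
    InW p m (inc q k) := by
  intro x hx
  have := inc_mem q k x hx
  omega

theorem InW.of_tail {p : ℤ} {m : ℕ} {y : ℤ} {v : List ℤ} (h : InW p m (y :: v)) :
    InW p m v := fun x hx => h x (List.mem_cons_of_mem _ hx)

/-- Moving the largest letter to the right. -/
theorem mv {t : ℤ → A} (h : Rel t) (x y : ℤ) :
    t (y + 1) * t (x + 1) = - (t (x + 1) * t (y + 1)) + t x * t (y + 1) - t x * t y
      - t y * t x + t y * t (x + 1) := by
  have e := h.rel x y
  rw [← sub_eq_zero, ← e]
  abel

theorem van {t : ℤ → A} (h : Rel t) (p : ℤ) (m : ℕ) (w : List ℤ) (hw : InW p m w)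
    (hl : 2 * m < w.length) : pr t w = 0 := h.vanish p m w hw hl

/-- A long word in `[p, p+m-1]` times `t_{p+m} t_{p+m-r} ⋯ t_{p+m}` vanishes. -/
theorem G {t : ℤ → A} (h : Rel t) (p : ℤ) (m : ℕ) (r : ℕ) (hr : r + 1 ≤ m) (w : List ℤ)
    (hw : InW p m w) (hl : 2 * m ≤ w.length + r) :
    pr t w * (t (p + m) * P t (p + m - r) (r + 1)) = 0 := by
  induction r generalizing w with
  | zero =>
    have e1 : P t (p + m - (0 : ℕ)) (0 + 1) = t (p + m) := by simp [P, inc]
    rw [e1]
    have ha := h.adj (p + m - 1)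
    have e2 : p + (m : ℤ) - 1 + 1 = p + m := by ring
    rw [e2] at ha
    have e3 : t (p + m) * t (p + m) = t (p + m - 1) * t (p + m)
        - t (p + m - 1) * t (p + m - 1) := by rw [ha]; abel
    have z : pr t w * t (p + m - 1) = 0 := by
      have := van h p m (w ++ [p + m - 1]) (hw.append (InW.cons (by omega) InW.nil))
        (by simp; omega)
      rwa [pr_append, pr_single] at this
    rw [e3, mul_sub, ← mul_assoc, ← mul_assoc, z]
    simp
  | succ r ih =>
    have ec : p + (m : ℤ) - (r + 1 : ℕ) = (p + m - r - 2) + 1 := by push_cast; ring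
    have ec' : (p + (m : ℤ) - r - 2) + 1 + 1 = p + m - r := by ring
    have em : p + (m : ℤ) = (p + m - 1) + 1 := by ring
    have hm := mv h (p + m - r - 2) (p + m - 1)
    have f1 : P t (p + m - (r + 1 : ℕ)) (r + 1 + 1)
        = t (p + m - r - 2 + 1) * P t (p + m - r) (r + 1) := by
      rw [ec, P_succ, ec']
    have f2 : P t (p + m - r) (r + 1) = P t (p + m - r) r * t (p + m) := by
      rw [P_succ_right]
      congr 2
      ring
    have i1 := ih (by omega) (w ++ [p + m - r - 2 + 1])
      (hw.append (InW.cons (by omega) InW.nil)) (by simp; omega)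
    have i2 := ih (by omega) (w ++ [p + m - r - 2])
      (hw.append (InW.cons (by omega) InW.nil)) (by simp; omega)
    have v1 := van h p m (w ++ (p + m - r - 2) :: (p + m - 1) :: inc (p + m - r) r)
      (hw.append (InW.cons (by omega) (InW.cons (by omega) (InW.inc (by omega) (by omega)))))
      (by simp [inc_len]; omega)
    have v2 := van h p m (w ++ (p + m - 1) :: (p + m - r - 2) :: inc (p + m - r) r)
      (hw.append (InW.cons (by omega) (InW.cons (by omega) (InW.inc (by omega) (by omega)))))
      (by simp [inc_len]; omega)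
    have v3 := van h p m (w ++ (p + m - 1) :: (p + m - r - 2 + 1) :: inc (p + m - r) r)
      (hw.append (InW.cons (by omega) (InW.cons (by omega) (InW.inc (by omega) (by omega)))))
      (by simp [inc_len]; omega)
    simp only [pr_append, pr_cons, pr_nil, mul_one, pr_inc] at i1 i2 v1 v2 v3
    rw [f1]
    have e2 : p + (m : ℤ) - 1 + 1 = p + m := by ring
    rw [e2] at hm
    rw [f2] at i1 i2 ⊢
    calc pr t w * (t (p + m) * (t (p + m - r - 2 + 1) * (P t (p + m - r) r * t (p + m))))
        = pr t w * ((t (p + m) * t (p + m - r - 2 + 1)) * (P t (p + m - r) r * t (p + m))) := by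
          noncomm_ring
      _ = - (pr t w * t (p + m - r - 2 + 1) * (t (p + m) * (P t (p + m - r) r * t (p + m))))
          + (pr t w * t (p + m - r - 2) * (t (p + m) * (P t (p + m - r) r * t (p + m))))
          - (pr t w * (t (p + m - r - 2) * (t (p + m - 1) * P t (p + m - r) r))) * t (p + m)
          - (pr t w * (t (p + m - 1) * (t (p + m - r - 2) * P t (p + m - r) r))) * t (p + m)
          + (pr t w * (t (p + m - 1) * (t (p + m - r - 2 + 1) * P t (p + m - r) r)))
            * t (p + m) := by
          rw [hm]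
          noncomm_ring
      _ = 0 := by
          rw [i1, i2, v1, v2, v3]
          simp

/-- A word of length `m + 1` in `[p, p+m-1]` kills `t_{p+m} t_{p+1} ⋯ t_{p+m}`. -/
theorem V {t : ℤ → A} (h : Rel t) (p : ℤ) (m : ℕ) (hm : 1 ≤ m) (w : List ℤ)
    (hw : InW p m w) (hl : m + 1 ≤ w.length) :
    pr t w * (t (p + m) * P t (p + 1) m) = 0 := by
  obtain ⟨r, rfl⟩ : ∃ r, m = r + 1 := ⟨m - 1, by omega⟩
  have := G h p (r + 1) r le_rfl w hw (by omega)
  have e : p + ((r + 1 : ℕ) : ℤ) - r = p + 1 := by push_cast; ring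
  rwa [e] at this

/-- `P t (p+1) m` with its last letter split off. -/
theorem P_last (t : ℤ → A) (p : ℤ) (m : ℕ) (hm : 1 ≤ m) :
    P t (p + 1) m = pr t (inc (p + 1) (m - 1)) * t (p + m) := by
  obtain ⟨r, rfl⟩ : ∃ r, m = r + 1 := ⟨m - 1, by omega⟩
  rw [P_succ_right, pr_inc]
  congr 2
  push_cast
  ring

/-- The mixed vanishing statement. -/
theorem L {t : ℤ → A} (h : Rel t) (p : ℤ) (m : ℕ) (hm : 1 ≤ m) (v w : List ℤ)
    (hw : InW p m w) (hv : InW (p + 1) (m - 1) v) (hl : m ≤ w.length + v.length) :
    pr t w * (t (p + m) * (pr t v * (t (p + m) * P t (p + 1) m))) = 0 := by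
  induction v generalizing w with
  | nil =>
    have ha := h.adj (p + m - 1)
    have e2 : p + (m : ℤ) - 1 + 1 = p + m := by ring
    rw [e2] at ha
    have e3 : t (p + m) * t (p + m) = t (p + m - 1) * t (p + m)
        - t (p + m - 1) * t (p + m - 1) := by rw [ha]; abel
    have i1 := V h p m hm (w ++ [p + m - 1]) (hw.append (InW.cons (by omega) InW.nil))
      (by simp at hl ⊢; omega)
    have v1 := van h p m (w ++ (p + m - 1) :: (p + m - 1) :: inc (p + 1) (m - 1))
      (hw.append (InW.cons (by omega) (InW.cons (by omega) (InW.inc (by omega) (by omega)))))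
      (by simp [inc_len] at hl ⊢; omega)
    simp only [pr_append, pr_cons, pr_nil, mul_one] at i1 v1
    have e4 : pr t ([] : List ℤ) = 1 := rfl
    rw [e4, one_mul]
    calc pr t w * (t (p + m) * (t (p + m) * P t (p + 1) m))
        = pr t w * ((t (p + m) * t (p + m)) * P t (p + 1) m) := by noncomm_ring
      _ = pr t w * t (p + m - 1) * (t (p + m) * P t (p + 1) m)
          - pr t w * (t (p + m - 1) * (t (p + m - 1) * P t (p + 1) m)) := by
          rw [e3]; noncomm_ring
      _ = 0 - pr t w * (t (p + m - 1) * (t (p + m - 1) * pr t (inc (p + 1) (m - 1))))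
          * t (p + m) := by
          rw [i1, P_last t p m hm]; noncomm_ring
      _ = 0 := by rw [v1]; simp
  | cons x v ih =>
    have hx := hv x List.mem_cons_self
    have hv' := hv.of_tail
    obtain ⟨y, rfl⟩ : ∃ y, x = y + 1 := ⟨x - 1, by ring⟩
    have hvw : InW p m v := fun z hz => by
      have := hv' z hz
      omega
    have i1 := ih (w ++ [y + 1]) (hw.append (InW.cons (by omega) InW.nil)) hv'
      (by simp at hl ⊢; omega)
    have i2 := ih (w ++ [y]) (hw.append (InW.cons (by omega) InW.nil)) hv'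
      (by simp at hl ⊢; omega)
    have v1 := V h p m hm (w ++ y :: (p + m - 1) :: v)
      (hw.append (InW.cons (by omega) (InW.cons (by omega) hvw))) (by simp at hl ⊢; omega)
    have v2 := V h p m hm (w ++ (p + m - 1) :: y :: v)
      (hw.append (InW.cons (by omega) (InW.cons (by omega) hvw))) (by simp at hl ⊢; omega)
    have v3 := V h p m hm (w ++ (p + m - 1) :: (y + 1) :: v)
      (hw.append (InW.cons (by omega) (InW.cons (by omega) hvw))) (by simp at hl ⊢; omega)
    simp only [pr_append, pr_cons, pr_nil, mul_one] at i1 i2 v1 v2 v3 ⊢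
    have hmv := mv h y (p + m - 1)
    have e2 : p + (m : ℤ) - 1 + 1 = p + m := by ring
    rw [e2] at hmv
    set Q := t (p + m) * P t (p + 1) m with hQ
    calc pr t w * (t (p + m) * (t (y + 1) * pr t v * Q))
        = pr t w * ((t (p + m) * t (y + 1)) * (pr t v * Q)) := by noncomm_ring
      _ = - (pr t w * t (y + 1) * (t (p + m) * (pr t v * Q)))
          + (pr t w * t y * (t (p + m) * (pr t v * Q)))
          - (pr t w * (t y * (t (p + m - 1) * pr t v))) * Q
          - (pr t w * (t (p + m - 1) * (t y * pr t v))) * Q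
          + (pr t w * (t (p + m - 1) * (t (y + 1) * pr t v))) * Q := by
          rw [hmv]
          noncomm_ring
      _ = 0 := by
          rw [i1, i2, v1, v2, v3]
          simp

/-- The case of one letter after `t_{p+m}`. -/
theorem L1 {t : ℤ → A} (h : Rel t) (p : ℤ) (m : ℕ) (hm : 1 ≤ m) (w : List ℤ) (x : ℤ)
    (hw : InW p m w) (hx : p + 1 ≤ x ∧ x ≤ p + m - 1) (hl : m ≤ w.length) :
    pr t w * (t (p + m) * (t x * P t (p + 1) m)) = 0 := by
  obtain ⟨y, rfl⟩ : ∃ y, x = y + 1 := ⟨x - 1, by ring⟩
  have i1 := V h p m hm (w ++ [y + 1]) (hw.append (InW.cons (by omega) InW.nil))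
    (by simp at hl ⊢; omega)
  have i2 := V h p m hm (w ++ [y]) (hw.append (InW.cons (by omega) InW.nil))
    (by simp at hl ⊢; omega)
  have hI : InW p m (inc (p + 1) (m - 1)) := InW.inc (by omega) (by omega)
  have v1 := van h p m (w ++ y :: (p + m - 1) :: inc (p + 1) (m - 1))
    (hw.append (InW.cons (by omega) (InW.cons (by omega) hI)))
    (by simp [inc_len] at hl ⊢; omega)
  have v2 := van h p m (w ++ (p + m - 1) :: y :: inc (p + 1) (m - 1))
    (hw.append (InW.cons (by omega) (InW.cons (by omega) hI)))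
    (by simp [inc_len] at hl ⊢; omega)
  have v3 := van h p m (w ++ (p + m - 1) :: (y + 1) :: inc (p + 1) (m - 1))
    (hw.append (InW.cons (by omega) (InW.cons (by omega) hI)))
    (by simp [inc_len] at hl ⊢; omega)
  simp only [pr_append, pr_cons, pr_nil, mul_one] at i1 i2 v1 v2 v3 ⊢
  have hmv := mv h y (p + m - 1)
  have e2 : p + (m : ℤ) - 1 + 1 = p + m := by ring
  rw [e2] at hmv
  rw [P_last t p m hm] at i1 i2 ⊢
  set J := pr t (inc (p + 1) (m - 1)) with hJ
  calc pr t w * (t (p + m) * (t (y + 1) * (J * t (p + m))))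
      = pr t w * ((t (p + m) * t (y + 1)) * (J * t (p + m))) := by noncomm_ring
    _ = - (pr t w * t (y + 1) * (t (p + m) * (J * t (p + m))))
        + (pr t w * t y * (t (p + m) * (J * t (p + m))))
        - (pr t w * (t y * (t (p + m - 1) * J))) * t (p + m)
        - (pr t w * (t (p + m - 1) * (t y * J))) * t (p + m)
        + (pr t w * (t (p + m - 1) * (t (y + 1) * J))) * t (p + m) := by
        rw [hmv]
        noncomm_ring
    _ = 0 := by
        rw [i1, i2, v1, v2, v3]
        simp

end Pool.Agent.X330.MT
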